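import Pool.Agent.H899KR.Main

/-!
# Better elimination costs for the components of index 3 and 4
-/

namespace Pool.Agent.H899KR

namespace Sys

variable {n : ℕ} {L : Type*} [LieRing L]

/-- Last letter of index `≥ k`. -/
theorem last {S : Sys n L} {k a b : ℕ} {p q : L} (hk : k < n) (h : a + b ≡ k [MOD n])
    (hb : k ≤ b) (hb2 : b < n) (hp : p ∈ S.A a) (hq : q ∈ S.A b) : Gen S (k + 1) k ⁅p, q⁆ :=
  rset_sub hk (AddSubgroup.subset_closure ⟨a, b, p, q, h, hb, hb2, hp, hq, rfl⟩)

theorem lie_zero_of {S : Sys n L} {a b : ℕ} {p q : L} (h : a + b ≡ 0 [MOD n])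
    (hp : p ∈ S.A a) (hq : q ∈ S.A b) : ⁅p, q⁆ = 0 :=
  S.eq_zero_of_mod h (S.br _ _ _ _ hp hq)

/-- Induction over `S.der.A k` with reduced indices. -/
theorem der_ind {S : Sys n L} {k : ℕ} (hk1 : 1 ≤ k) (hk : k < n) (G : AddSubgroup L)
    (h1 : ∀ a b p q, 1 ≤ a → 1 ≤ b → a + b = k → p ∈ S.A a → q ∈ S.A b → ⁅p, q⁆ ∈ G)
    (h2 : ∀ a b p q, a < n → b < n → a + b = n + k → p ∈ S.A a → q ∈ S.A b → ⁅p, q⁆ ∈ G) :
    S.der.A k ≤ G := by
  show AddSubgroup.closure (S.brs k) ≤ G
  rw [AddSubgroup.closure_le]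
  rintro z ⟨i, j, x, y, h, hx, hy, rfl⟩
  have hn : 0 < n := by omega
  rw [S.per i (i % n) (Nat.mod_modEq i n).symm] at hx
  rw [S.per j (j % n) (Nat.mod_modEq j n).symm] at hy
  have h' : i % n + j % n ≡ k [MOD n] :=
    (Nat.ModEq.add (Nat.mod_modEq i n) (Nat.mod_modEq j n)).trans h
  have hi := Nat.mod_lt i hn
  have hj := Nat.mod_lt j hn
  generalize i % n = a at *
  generalize j % n = b at *
  show ⁅x, y⁆ ∈ G
  rcases Nat.eq_zero_or_pos a with rfl | ha
  · rw [S.eq_zero_of_mod rfl hx, zero_lie]; exact G.zero_mem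
  rcases Nat.eq_zero_or_pos b with rfl | hb
  · rw [S.eq_zero_of_mod rfl hy, lie_zero]; exact G.zero_mem
  have hab : a + b = k ∨ a + b = n + k := by
    have h2 : (a + b) % n = k % n := h'
    rw [Nat.mod_eq_of_lt hk] at h2
    rcases Nat.lt_or_ge (a + b) n with hlt | hge
    · left; rw [Nat.mod_eq_of_lt hlt] at h2; exact h2
    · right; rw [Nat.mod_eq_sub_mod hge, Nat.mod_eq_of_lt (by omega)] at h2; omega
  rcases hab with hab | hab
  · exact h1 a b x y ha hb hab hx hy
  · exact h2 a b x y hi hj hab hx hy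

/-- Right multiplication by a fixed element, as a preimage of a subgroup. -/
def rpre (G : AddSubgroup L) (v : L) : AddSubgroup L where
  carrier := {u | ⁅u, v⁆ ∈ G}
  zero_mem' := by show ⁅(0 : L), v⁆ ∈ G; rw [zero_lie]; exact G.zero_mem
  add_mem' {a b} ha hb := by
    show ⁅a + b, v⁆ ∈ G; rw [add_lie]; exact G.add_mem ha hb
  neg_mem' {a} ha := by show ⁅-a, v⁆ ∈ G; rw [neg_lie]; exact G.neg_mem ha

/-- Left multiplication by a fixed element, as a preimage of a subgroup. -/
def lpre (G : AddSubgroup L) (u : L) : AddSubgroup L where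
  carrier := {v | ⁅u, v⁆ ∈ G}
  zero_mem' := by show ⁅u, (0 : L)⁆ ∈ G; rw [lie_zero]; exact G.zero_mem
  add_mem' {a b} ha hb := by
    show ⁅u, a + b⁆ ∈ G; rw [lie_add]; exact G.add_mem ha hb
  neg_mem' {a} ha := by show ⁅u, -a⁆ ∈ G; rw [lie_neg]; exact G.neg_mem ha

theorem gen_neg {S : Sys n L} {k j : ℕ} {x y : L} (h : Gen S k j ⁅x, y⁆) :
    Gen S k j ⁅y, x⁆ := by
  rw [← lie_skew]; exact h.neg

/-- `[L'_1, [L_1, L_1]]` is generated by the components of index `≥ 4`. -/
theorem p12 {S : Sys n L} (hn : 4 ≤ n) {u r s : L} (hu : u ∈ S.der.A 1) (hr : r ∈ S.A 1)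
    (hs : s ∈ S.A 1) : Gen S 4 3 ⁅u, ⁅r, s⁆⁆ := by
  have hv : ⁅r, s⁆ ∈ S.A 2 := S.br _ _ _ _ hr hs
  have hz : ∀ p ∈ S.A (n - 1), ⁅⁅r, s⁆, p⁆ = 0 := by
    intro p hp
    have h1 : ⁅r, p⁆ = 0 := lie_zero_of (S := S) (a := 1) (b := n - 1)
      (by rw [show 1 + (n - 1) = n by omega]; simp [Nat.ModEq]) hr hp
    have h2 : ⁅s, p⁆ = 0 := lie_zero_of (S := S) (a := 1) (b := n - 1)
      (by rw [show 1 + (n - 1) = n by omega]; simp [Nat.ModEq]) hs hp
    rw [lie_lie, h1, h2, lie_zero, lie_zero, sub_zero]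
  have key : S.der.A 1 ≤ rpre (S.genSub 4 3) ⁅r, s⁆ := by
    refine der_ind (by norm_num) (by omega) _ ?_ ?_
    · intro a b p q ha hb hab; omega
    · intro a b p q ha hb hab hp hq
      show Gen S 4 3 ⁅⁅p, q⁆, ⁅r, s⁆⁆
      have e : ⁅⁅p, q⁆, ⁅r, s⁆⁆ = -⁅⁅⁅r, s⁆, p⁆, q⁆ + ⁅⁅⁅r, s⁆, q⁆, p⁆ := by
        rw [← lie_skew ⁅p, q⁆ ⁅r, s⁆, leibniz_lie ⁅r, s⁆ p q, ← lie_skew p ⁅⁅r, s⁆, q⁆]
        abel
      rw [e]
      refine Gen.add (Gen.neg ?_) ?_
      · rcases Nat.lt_or_ge b 3 with hb3 | hb3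
        · have ha' : a = n - 1 := by omega
          subst ha'
          rw [hz p hp, zero_lie]; exact Gen.zero _
        · refine last (k := 3) (a := 2 + a) (by omega) ?_ hb3 hb (S.br _ _ _ _ hv hp) hq
          rw [show 2 + a + b = n + 3 by omega]; simp [Nat.ModEq]
      · rcases Nat.lt_or_ge a 3 with ha3 | ha3
        · have hb' : b = n - 1 := by omega
          subst hb'
          rw [hz q hq, zero_lie]; exact Gen.zero _
        · refine last (k := 3) (a := 2 + b) (by omega) ?_ ha3 ha (S.br _ _ _ _ hv hq) hp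
          rw [show 2 + b + a = n + 3 by omega]; simp [Nat.ModEq]
  exact key hu

/-- Elimination of the component of index 3 costs 2. -/
theorem elim3 (hn : 4 ≤ n) (S : Sys n L) : ∀ x ∈ (der^[2] S).A 3, Gen S 4 3 x := by
  have h12 : ∀ u ∈ S.der.A 1, ∀ v ∈ S.der.A 2, Gen S 4 3 ⁅u, v⁆ := by
    intro u hu
    have key : S.der.A 2 ≤ lpre (S.genSub 4 3) u := by
      refine der_ind (by norm_num) (by omega) _ ?_ ?_
      · intro a b p q ha hb hab hp hq
        obtain rfl : a = 1 := by omega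
        obtain rfl : b = 1 := by omega
        exact p12 hn hu hp hq
      · intro a b p q ha hb hab hp hq
        show Gen S 4 3 ⁅u, ⁅p, q⁆⁆
        have hu1 := S.der_le 1 hu
        rw [leibniz_lie]
        refine Gen.add ?_ (gen_neg ?_)
        · refine last (k := 3) (a := 1 + a) (by omega) ?_ (by omega) hb (S.br _ _ _ _ hu1 hp) hq
          rw [show 1 + a + b = n + 3 by omega]; simp [Nat.ModEq]
        · refine last (k := 3) (a := 1 + b) (by omega) ?_ (by omega) ha (S.br _ _ _ _ hu1 hq) hp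
          rw [show 1 + b + a = n + 3 by omega]; simp [Nat.ModEq]
    intro v hv
    exact key hv
  have key : S.der.der.A 3 ≤ S.genSub 4 3 := by
    refine der_ind (by norm_num) (by omega) _ ?_ ?_
    · intro a b p q ha hb hab hp hq
      have : (a = 1 ∧ b = 2) ∨ (a = 2 ∧ b = 1) := by omega
      rcases this with ⟨rfl, rfl⟩ | ⟨rfl, rfl⟩
      · exact h12 p hp q hq
      · exact gen_neg (h12 q hq p hp)
    · intro a b p q ha hb hab hp hq
      refine last (k := 3) (a := a) (by omega) ?_ (by omega) hb (S.der_le _ hp) (S.der_le _ hq)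
      rw [hab]; simp [Nat.ModEq]
  intro x hx
  exact key hx

theorem per_mem {S : Sys n L} {i j : ℕ} {x : L} (h : i ≡ j [MOD n]) (hx : x ∈ S.A i) :
    x ∈ S.A j := by
  rwa [← S.per _ _ h]

/-- Elimination of the component of index 4 costs 3. -/
theorem elim4 (hn : 5 ≤ n) (S : Sys n L) : ∀ x ∈ (der^[3] S).A 4, Gen S 5 4 x := by
  -- killed elements of degree 2
  have hK : ∀ w ∈ S.A 2, ∀ u, Gen S 4 2 u → Gen S 5 4 ⁅w, u⁆ := by
    intro w hw u hu
    exact elim (k := 4) (by omega) (by norm_num) hw hu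
  have hK3 : ∀ w ∈ S.A 1, ∀ u, Gen S 4 3 u → Gen S 5 4 ⁅w, u⁆ := by
    intro w hw u hu
    exact elim (k := 4) (by omega) (by norm_num) hw hu
  have z1 : ∀ w ∈ S.A 1, ∀ z ∈ S.A (n - 1), ⁅w, z⁆ = 0 := by
    intro w hw z hz
    exact lie_zero_of (S := S) (a := 1) (b := n - 1)
      (by rw [show 1 + (n - 1) = n by omega]; simp [Nat.ModEq]) hw hz
  have z1' : ∀ w ∈ S.A 1, ∀ z ∈ S.A (n - 1), ⁅z, w⁆ = 0 := by
    intro w hw z hz
    rw [← lie_skew, z1 w hw z hz, neg_zero]
  -- (alpha, alpha)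
  have haa : ∀ a ∈ S.der.A 1, ∀ a' ∈ S.der.A 1, ∀ b ∈ S.der.A 1, ∀ b' ∈ S.der.A 1,
      Gen S 5 4 ⁅⁅a, a'⁆, ⁅b, b'⁆⁆ := by
    intro a ha a' ha' b hb b' hb'
    have h1 : Gen S 4 3 ⁅⁅a, a'⁆, b⁆ := gen_neg (p12 (by omega) hb (S.der_le _ ha) (S.der_le _ ha'))
    have h2 : Gen S 4 3 ⁅⁅a, a'⁆, b'⁆ :=
      gen_neg (p12 (by omega) hb' (S.der_le _ ha) (S.der_le _ ha'))
    rw [leibniz_lie]
    exact Gen.add (gen_neg (hK3 b' (S.der_le _ hb') _ h1)) (hK3 b (S.der_le _ hb) _ h2)
  -- (alpha, beta)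
  have hab : ∀ a ∈ S.A 1, ∀ a' ∈ S.A 1, ∀ y ∈ S.A 3, ∀ z ∈ S.A (n - 1),
      Gen S 5 4 ⁅⁅a, a'⁆, ⁅y, z⁆⁆ := by
    intro a ha a' ha' y hy z hz
    have h0 : ⁅⁅a, a'⁆, z⁆ = 0 := by
      rw [lie_lie, z1 a ha z hz, z1 a' ha' z hz, lie_zero, lie_zero, sub_zero]
    rw [leibniz_lie, h0, lie_zero, add_zero]
    refine last (k := 4) (a := 2 + 3) (by omega) ?_ (by omega) (by omega)
      (S.br _ _ _ _ (S.br _ _ _ _ ha ha') hy) hz
    rw [show 2 + 3 + (n - 1) = n + 4 by omega]; simp [Nat.ModEq]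
  -- `[[y,z'],w] = [[y,w],z']` for `w` of degree 1
  have hw1 : ∀ y ∈ S.A 3, ∀ z ∈ S.A (n - 1), ∀ w ∈ S.A 1, ⁅⁅y, z⁆, w⁆ = ⁅⁅y, w⁆, z⁆ := by
    intro y _ z hz w hw
    rw [lie_lie y z w, z1' w hw z hz, lie_zero, zero_sub, lie_skew]
  -- (beta, beta')
  have hbb : ∀ y ∈ S.A 3, ∀ z' ∈ S.A (n - 1), ∀ w1 ∈ S.A 1, ∀ w2 ∈ S.A 2, ∀ z ∈ S.A (n - 1),
      Gen S 5 4 ⁅⁅y, z'⁆, ⁅⁅w1, w2⁆, z⁆⁆ := by
    intro y hy z' hz' w1 hw1' w2 hw2 z hz
    have hu : ⁅y, z'⁆ ∈ S.A 2 := per_mem
      (by rw [show 3 + (n - 1) = n + 2 by omega]; simp [Nat.ModEq]) (S.br _ _ _ _ hy hz')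
    have hx : ⁅w1, w2⁆ ∈ S.A 3 := S.br _ _ _ _ hw1' hw2
    have hs : ⁅⁅y, z'⁆, z⁆ ∈ S.A 1 := per_mem
      (by rw [show 2 + (n - 1) = n + 1 by omega]; simp [Nat.ModEq]) (S.br _ _ _ _ hu hz)
    have hw1z : ⁅z, w2⁆ ∈ S.A 1 := per_mem
      (by rw [show n - 1 + 2 = n + 1 by omega]; simp [Nat.ModEq]) (S.br _ _ _ _ hz hw2)
    rw [leibniz_lie]
    refine Gen.add ?_ (gen_neg ?_)
    · refine last (k := 4) (a := 2 + 3) (by omega) ?_ (by omega) (by omega)
        (S.br _ _ _ _ hu hx) hz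
      rw [show 2 + 3 + (n - 1) = n + 4 by omega]; simp [Nat.ModEq]
    · -- `[[u,z],[w1,w2]]`
      rw [leibniz_lie]
      refine Gen.add (gen_neg (hK w2 hw2 _ ?_)) (hK3 w1 hw1' _ ?_)
      · -- `[[u,z],w1] = [[[y,w1],z'],z]`
        have e1 : ⁅⁅⁅y, z'⁆, z⁆, w1⁆ = ⁅⁅⁅y, w1⁆, z'⁆, z⁆ := by
          rw [lie_lie ⁅y, z'⁆ z w1, z1' w1 hw1' z hz, lie_zero, zero_sub, lie_skew,
            hw1 y hy z' hz' w1 hw1']
        rw [e1]
        have h4 : ⁅y, w1⁆ ∈ S.A 4 := S.br _ _ _ _ hy hw1'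
        have g := ((Gen.base (S := S) (k := 4) le_rfl (by omega) h4).br (by omega) (by omega)
          hz').br (by omega) (by omega : n - 1 < n) hz
        refine g.mod ?_
        rw [show 4 + (n - 1) + (n - 1) = n + (n + 2) by omega]; simp [Nat.ModEq]
      · -- `[[u,z],w2] = [[u,w2],z] + [u,[z,w2]]`
        have e2 : ⁅⁅⁅y, z'⁆, z⁆, w2⁆ = ⁅⁅y, z'⁆, ⁅z, w2⁆⁆ + ⁅⁅⁅y, z'⁆, w2⁆, z⁆ := by
          rw [lie_lie ⁅y, z'⁆ z w2, sub_eq_add_neg, lie_skew]
        rw [e2]
        refine Gen.add ?_ ?_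
        · rw [hw1 y hy z' hz' _ hw1z]
          have h4 : ⁅y, ⁅z, w2⁆⁆ ∈ S.A 4 := S.br _ _ _ _ hy hw1z
          have g := (Gen.base (S := S) (k := 4) le_rfl (by omega) h4).br (by omega)
            (by omega : n - 1 < n) hz'
          refine g.mod ?_
          rw [show 4 + (n - 1) = n + 3 by omega]; simp [Nat.ModEq]
        · have h4 : ⁅⁅y, z'⁆, w2⁆ ∈ S.A 4 := S.br _ _ _ _ hu hw2
          have g := (Gen.base (S := S) (k := 4) le_rfl (by omega) h4).br (by omega)
            (by omega : n - 1 < n) hz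
          refine g.mod ?_
          rw [show 4 + (n - 1) = n + 3 by omega]; simp [Nat.ModEq]
  -- a `beta` element against anything of the form `beta`
  have hbb2 : ∀ y ∈ S.A 3, ∀ z' ∈ S.A (n - 1), ∀ x ∈ S.der.A 3, ∀ z ∈ S.A (n - 1),
      Gen S 5 4 ⁅⁅y, z'⁆, ⁅x, z⁆⁆ := by
    intro y hy z' hz' x hx z hz
    have hu : ⁅y, z'⁆ ∈ S.A 2 := per_mem
      (by rw [show 3 + (n - 1) = n + 2 by omega]; simp [Nat.ModEq]) (S.br _ _ _ _ hy hz')
    have key : S.der.A 3 ≤ rpre (lpre (S.genSub 5 4) ⁅y, z'⁆) z := by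
      refine der_ind (by norm_num) (by omega) _ ?_ ?_
      · intro a b p q ha hb hab hp hq
        show Gen S 5 4 ⁅⁅y, z'⁆, ⁅⁅p, q⁆, z⁆⁆
        have : (a = 1 ∧ b = 2) ∨ (a = 2 ∧ b = 1) := by omega
        rcases this with ⟨rfl, rfl⟩ | ⟨rfl, rfl⟩
        · exact hbb y hy z' hz' p hp q hq z hz
        · have := hbb y hy z' hz' q hq p hp z hz
          rw [← lie_skew p q, neg_lie, lie_neg]
          exact this.neg
      · intro a b p q ha hb hab hp hq
        show Gen S 5 4 ⁅⁅y, z'⁆, ⁅⁅p, q⁆, z⁆⁆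
        refine hK _ hu _ ?_
        have g := ((Gen.base (S := S) (k := 4) (by omega) ha hp).br (by omega) hb
          hq).br (by omega) (by omega : n - 1 < n) hz
        refine g.mod ?_
        rw [show a + b + (n - 1) = n + (n + 2) by omega]; simp [Nat.ModEq]
    exact key hx
  -- the pair (2,2)
  have h22 : ∀ u ∈ S.der.der.A 2, ∀ v ∈ S.der.der.A 2, Gen S 5 4 ⁅u, v⁆ := by
    intro u hu v hv
    -- elements of `L''_2`
    have hmem : ∀ w ∈ S.der.der.A 2, w ∈ S.A 2 := fun w hw => S.der_le _ (S.der.der_le _ hw)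
    have step : S.der.der.A 2 ≤ lpre (S.genSub 5 4) u := by
      refine der_ind (by norm_num) (by omega) _ ?_ ?_
      · -- v alpha
        intro a b p q ha hb hab' hp hq
        obtain rfl : a = 1 := by omega
        obtain rfl : b = 1 := by omega
        show Gen S 5 4 ⁅u, ⁅p, q⁆⁆
        have step2 : S.der.der.A 2 ≤ rpre (S.genSub 5 4) ⁅p, q⁆ := by
          refine der_ind (by norm_num) (by omega) _ ?_ ?_
          · intro c d r s hc hd hcd hr hs
            obtain rfl : c = 1 := by omega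
            obtain rfl : d = 1 := by omega
            exact haa r hr s hs p hp q hq
          · intro c d r s hc hd hcd hr hs
            show Gen S 5 4 ⁅⁅r, s⁆, ⁅p, q⁆⁆
            have hpq : ⁅p, q⁆ ∈ S.A 2 := S.br _ _ _ _ (S.der_le _ hp) (S.der_le _ hq)
            have hr' := S.der_le _ hr
            have hs' := S.der_le _ hs
            rcases (show c = 3 ∨ d = 3 ∨ (4 ≤ c ∧ 4 ≤ d) by omega) with rfl | rfl | ⟨h1, h2⟩
            · obtain rfl : d = n - 1 := by omega
              exact gen_neg (hab p (S.der_le _ hp) q (S.der_le _ hq) r hr' s hs')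
            · obtain rfl : c = n - 1 := by omega
              have := gen_neg (hab p (S.der_le _ hp) q (S.der_le _ hq) s hs' r hr')
              rw [← lie_skew r s, neg_lie]
              exact this.neg
            · refine gen_neg (hK _ hpq _ ?_)
              refine ((Gen.base (S := S) (k := 4) h1 hc hr').br h2 hd hs').mod ?_
              rw [hcd]; simp [Nat.ModEq]
        exact step2 hu
      · -- v of the second kind
        intro a b p q ha hb hab' hp hq
        show Gen S 5 4 ⁅u, ⁅p, q⁆⁆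
        have hp' := S.der_le _ hp
        have hq' := S.der_le _ hq
        rcases (show a = 3 ∨ b = 3 ∨ (4 ≤ a ∧ 4 ≤ b) by omega) with h3 | h3 | ⟨h1, h2⟩
        · subst h3
          obtain rfl : b = n - 1 := by omega
          have step2 : S.der.der.A 2 ≤ rpre (S.genSub 5 4) ⁅p, q⁆ := by
            refine der_ind (by norm_num) (by omega) _ ?_ ?_
            · intro c d r s hc hd hcd hr hs
              obtain rfl : c = 1 := by omega
              obtain rfl : d = 1 := by omega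
              exact hab r (S.der_le _ hr) s (S.der_le _ hs) p hp' q hq'
            · intro c d r s hc hd hcd hr hs
              show Gen S 5 4 ⁅⁅r, s⁆, ⁅p, q⁆⁆
              have hpq : ⁅p, q⁆ ∈ S.A 2 := per_mem
                (by rw [show 3 + (n - 1) = n + 2 by omega]; simp [Nat.ModEq])
                (S.br _ _ _ _ hp' hq')
              have hr' := S.der_le _ hr
              have hs' := S.der_le _ hs
              rcases (show c = 3 ∨ d = 3 ∨ (4 ≤ c ∧ 4 ≤ d) by omega) with h5 | h5 | ⟨h1, h2⟩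
              · subst h5
                obtain rfl : d = n - 1 := by omega
                exact hbb2 r hr' s hs' p hp q hq'
              · subst h5
                obtain rfl : c = n - 1 := by omega
                have := hbb2 s hs' r hr' p hp q hq'
                rw [← lie_skew r s, neg_lie]
                exact this.neg
              · refine gen_neg (hK _ hpq _ ?_)
                refine ((Gen.base (S := S) (k := 4) h1 hc hr').br h2 hd hs').mod ?_
                rw [hcd]; simp [Nat.ModEq]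
          exact step2 hu
        · subst h3
          obtain rfl : a = n - 1 := by omega
          have step2 : S.der.der.A 2 ≤ rpre (S.genSub 5 4) ⁅q, p⁆ := by
            refine der_ind (by norm_num) (by omega) _ ?_ ?_
            · intro c d r s hc hd hcd hr hs
              obtain rfl : c = 1 := by omega
              obtain rfl : d = 1 := by omega
              exact hab r (S.der_le _ hr) s (S.der_le _ hs) q hq' p hp'
            · intro c d r s hc hd hcd hr hs
              show Gen S 5 4 ⁅⁅r, s⁆, ⁅q, p⁆⁆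
              have hpq : ⁅q, p⁆ ∈ S.A 2 := per_mem
                (by rw [show 3 + (n - 1) = n + 2 by omega]; simp [Nat.ModEq])
                (S.br _ _ _ _ hq' hp')
              have hr' := S.der_le _ hr
              have hs' := S.der_le _ hs
              rcases (show c = 3 ∨ d = 3 ∨ (4 ≤ c ∧ 4 ≤ d) by omega) with h5 | h5 | ⟨h1, h2⟩
              · subst h5
                obtain rfl : d = n - 1 := by omega
                exact hbb2 r hr' s hs' q hq p hp'
              · subst h5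
                obtain rfl : c = n - 1 := by omega
                have := hbb2 s hs' r hr' q hq p hp'
                rw [← lie_skew r s, neg_lie]
                exact this.neg
              · refine gen_neg (hK _ hpq _ ?_)
                refine ((Gen.base (S := S) (k := 4) h1 hc hr').br h2 hd hs').mod ?_
                rw [hcd]; simp [Nat.ModEq]
          have h6 : Gen S 5 4 ⁅u, ⁅q, p⁆⁆ := step2 hu
          rw [← lie_skew p q, lie_neg]
          exact h6.neg
        · refine hK _ (hmem u hu) _ ?_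
          refine ((Gen.base (S := S) (k := 4) h1 ha hp').br h2 hb hq').mod ?_
          rw [hab']; simp [Nat.ModEq]
    exact step hv
  have key : S.der.der.der.A 4 ≤ S.genSub 5 4 := by
    refine der_ind (by norm_num) (by omega) _ ?_ ?_
    · intro a b p q ha hb hab' hp hq
      have hp1 := S.der_le _ (S.der.der_le _ hp)
      have hq1 := S.der_le _ (S.der.der_le _ hq)
      have : (a = 1 ∧ b = 3) ∨ (a = 3 ∧ b = 1) ∨ (a = 2 ∧ b = 2) := by omega
      rcases this with ⟨rfl, rfl⟩ | ⟨rfl, rfl⟩ | ⟨rfl, rfl⟩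
      · exact hK3 p hp1 q (elim3 (by omega) S q hq)
      · exact gen_neg (hK3 q hq1 p (elim3 (by omega) S p hp))
      · exact h22 p hp q hq
    · intro a b p q ha hb hab' hp hq
      have hp1 := S.der_le _ (S.der.der_le _ hp)
      have hq1 := S.der_le _ (S.der.der_le _ hq)
      refine last (k := 4) (a := a) (by omega) ?_ (by omega) hb hp1 hq1
      rw [hab']; simp [Nat.ModEq]
  intro x hx
  exact key hx

/-! ### The improved cost sequence -/

/-- `kd 0, …, kd 5 = 0, 0, 1, 3, 5, 8` and `kd (k+1) = 2 * kd k + 1 - kd ⌊(k+1)/2⌋` for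
`k ≥ 5`. -/
def kd : ℕ → ℕ
  | 0 => 0
  | 1 => 0
  | 2 => 1
  | 3 => 3
  | 4 => 5
  | 5 => 8
  | (k + 6) => 2 * kd (k + 5) + 1 - kd ((k + 6) / 2)
termination_by k => k
decreasing_by all_goals omega

theorem kd_succ (k : ℕ) (hk : 5 ≤ k) : kd (k + 1) = 2 * kd k + 1 - kd ((k + 1) / 2) := by
  obtain ⟨m, rfl⟩ := Nat.exists_eq_add_of_le' hk
  rw [kd]

theorem kd_mono_aux (k : ℕ) : ∀ j, j ≤ k → kd j ≤ kd k := by
  induction k with
  | zero => intro j hj; obtain rfl : j = 0 := by omega
            exact le_rfl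
  | succ k ih =>
    intro j hj
    rcases Nat.lt_or_ge j (k + 1) with h | h
    · have h1 := ih j (by omega)
      rcases Nat.lt_or_ge k 5 with hk | hk
      · have : kd k ≤ kd (k + 1) := by
          interval_cases k <;> simp [kd]
        omega
      · have h2 := ih ((k + 1) / 2) (by omega)
        rw [kd_succ k hk]; omega
    · obtain rfl : j = k + 1 := by omega
      exact le_rfl

theorem kd_mono : Monotone kd := fun a b h => kd_mono_aux b a h

/-- Analogue of `Prop1` for `kd`. -/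
def Prop2 (n : ℕ) (L : Type*) [LieRing L] (k : ℕ) : Prop :=
  ∀ (S : Sys n L) (j : ℕ), 1 ≤ j → j < k → ∀ x ∈ (der^[kd k - kd j] S).A j, Gen S k j x

theorem elim_k2 {k : ℕ} (h1 : 1 ≤ k) (hk : k < n) (hP : Prop2 n L k) (S : Sys n L) :
    ∀ x ∈ (der^[(kd k - kd ((k + 1) / 2)) + 1] S).A k, Gen S (k + 1) k x := by
  intro x hx
  rw [Function.iterate_succ_apply'] at hx
  set N := kd k - kd ((k + 1) / 2) with hN
  have hsub : (der^[N] S).der.A k ≤ S.genSub (k + 1) k := by
    refine der_ind h1 hk _ ?_ ?_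
    · intro a b x y ha hb hab hx hy
      show Gen S (k + 1) k ⁅x, y⁆
      rcases Nat.lt_or_ge b ((k + 1) / 2) with hlt | hge
      · have ha2 : (k + 1) / 2 ≤ a := by omega
        have hle : kd k - kd a ≤ N := by
          have := kd_mono ha2; omega
        have hx' : Gen S k a x := hP S a ha (by omega) x (iter_anti S hle a hx)
        exact gen_neg (elim (S := S) hk (by omega : b + a = k) (iter_le S N b hy) hx')
      · have hle : kd k - kd b ≤ N := by
          have := kd_mono hge; omega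
        have hy' : Gen S k b y := hP S b hb (by omega) y (iter_anti S hle b hy)
        exact elim (S := S) hk hab (iter_le S N a hx) hy'
    · intro a b x y ha hb hab hx hy
      refine last (k := k) (a := a) hk ?_ (by omega) hb (iter_le S N a hx) (iter_le S N b hy)
      rw [hab]; simp [Nat.ModEq]
  exact hsub hx

/-- Elimination with cost `kd (k+1) - kd k`. -/
theorem elim_cost {k : ℕ} (h1 : 1 ≤ k) (hk : k < n) (hP : Prop2 n L k) (S : Sys n L) :
    ∀ x ∈ (der^[kd (k + 1) - kd k] S).A k, Gen S (k + 1) k x := by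
  have hg := elim_k2 h1 hk hP S
  rcases Nat.lt_or_ge k 5 with h5 | h5
  · interval_cases k
    · simpa [kd] using hg
    · simpa [kd] using hg
    · have := elim3 (by omega) S
      simpa [kd] using this
    · have := elim4 (by omega) S
      simpa [kd] using this
  · have hm := kd_mono (show (k + 1) / 2 ≤ k by omega)
    have hs := kd_succ k h5
    have e : kd (k + 1) - kd k = (kd k - kd ((k + 1) / 2)) + 1 := by omega
    rw [e]; exact hg

theorem prop2 (k : ℕ) (h1 : 1 ≤ k) (hk : k ≤ n) : Prop2 n L k := by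
  induction k with
  | zero => omega
  | succ k ih =>
    rcases Nat.eq_zero_or_pos k with rfl | hk0
    · intro S j hj1 hj2; omega
    · have hP : Prop2 n L k := ih hk0 (by omega)
      intro S j hj1 hj2 x hx
      have hmk := kd_mono (show k ≤ k + 1 by omega)
      rcases Nat.lt_or_ge j k with hlt | hge
      · have hmj := kd_mono hlt.le
        have e : kd (k + 1) - kd j = (kd k - kd j) + (kd (k + 1) - kd k) := by omega
        rw [e, Function.iterate_add_apply] at hx
        have g := hP (der^[kd (k + 1) - kd k] S) j hj1 hlt x hx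
        exact g.lift (fun i => iter_le S _ i) (elim_cost hk0 (by omega) hP S)
      · obtain rfl : j = k := by omega
        exact elim_cost hk0 (by omega) hP S x hx

/-- The bound. -/
def bound2 (n : ℕ) : ℕ := kd (n - 1) + Nat.clog 2 n

theorem iter_bound2 (hn : 0 < n) (S : Sys n L) (j : ℕ) : (der^[bound2 n] S).A j = ⊥ := by
  rcases Nat.lt_or_ge n 2 with h1 | h2
  · obtain rfl : n = 1 := by omega
    rw [eq_bot_iff]
    intro x hx
    exact AddSubgroup.mem_bot.mpr (eq_zero_of_mod _ (Nat.modEq_one) hx)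
  · rw [bound2, add_comm, Function.iterate_add_apply]
    have hM : ∀ j, (der^[kd (n - 1)] S).A j ≤ S.H 0 := by
      intro j x hx
      rw [(der^[kd (n - 1)] S).per j (j % n) (Nat.mod_modEq j n).symm] at hx
      have hj := Nat.mod_lt j hn
      generalize j % n = i at *
      rcases Nat.eq_zero_or_pos i with rfl | hi
      · rw [eq_zero_of_mod _ rfl hx]; exact AddSubgroup.zero_mem _
      rcases Nat.lt_or_ge i (n - 1) with hlt | hge
      · have := prop2 (n := n) (L := L) (n - 1) (by omega) (by omega) S i hi hlt x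
          (iter_anti S (Nat.sub_le _ _) i hx)
        exact this.memH
      · exact (Gen.base (S := S) (k := n - 1) (by omega) hj (iter_le S _ _ hx)).memH
    have h3 := der_H hM (Nat.clog 2 n) j
    rw [S.H_bot hn] at h3
    · exact le_bot_iff.mp h3
    · have := Nat.le_pow_clog (b := 2) (by norm_num) n
      omega

theorem kd_succ_le (k : ℕ) (hk : 5 ≤ k) : kd (k + 1) ≤ 2 * kd k + 1 := by
  rw [kd_succ k hk]; exact Nat.sub_le _ _

theorem kd_values : kd 13 = 1349 := by
  have h6 : kd 6 = 14 := by rw [kd_succ 5 (by norm_num)]; norm_num [kd]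
  have h7 : kd 7 = 26 := by rw [kd_succ 6 (by norm_num), h6]; norm_num [kd]
  have h8 : kd 8 = 48 := by rw [kd_succ 7 (by norm_num), h7]; norm_num [kd]
  have h9 : kd 9 = 92 := by rw [kd_succ 8 (by norm_num), h8]; norm_num [kd]
  have h10 : kd 10 = 177 := by rw [kd_succ 9 (by norm_num), h9]; norm_num [kd]
  have h11 : kd 11 = 347 := by rw [kd_succ 10 (by norm_num), h10]; norm_num [kd]
  have h12 : kd 12 = 681 := by rw [kd_succ 11 (by norm_num), h11]; norm_num [h6]
  rw [kd_succ 12 (by norm_num), h12]; norm_num [h6]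

theorem kd_bound (m : ℕ) : kd (13 + m) + 1 ≤ 1350 * 2 ^ m := by
  induction m with
  | zero => rw [add_zero, kd_values]; norm_num
  | succ m ih =>
    have := kd_succ_le (13 + m) (by omega)
    rw [← add_assoc, pow_succ]; omega

theorem bound2_le (n : ℕ) (hn : 14 ≤ n) : 12 * bound2 n ≤ 2 ^ n := by
  obtain ⟨m, rfl⟩ := Nat.exists_eq_add_of_le hn
  have h1 := kd_bound m
  have h3 : m + 1 ≤ 2 ^ m := Nat.lt_two_pow_self
  have h2 : Nat.clog 2 (14 + m) ≤ m + 4 := by
    refine Nat.clog_le_of_le_pow ?_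
    rw [pow_add]; omega
  have e : 14 + m - 1 = 13 + m := by omega
  rw [bound2, e, pow_add]
  omega

end Sys

end Pool.Agent.H899KR
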