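import Mathlib

/-!
# An upper bound for Kreknin's function

Helper file: Kreknin-type elimination in a `ZMod n`-graded Lie ring with trivial zero component.
-/

namespace Pool.Agent.H899KR

/-- The cost sequence: `kc 0 = kc 1 = 0`, `kc (k+1) = 2 * kc k + 1 - kc ⌈k/2⌉` for `k ≥ 1`. -/
def kc : ℕ → ℕ
  | 0 => 0
  | 1 => 0
  | (k + 2) => 2 * kc (k + 1) + 1 - kc ((k + 2) / 2)
termination_by k => k
decreasing_by all_goals omega

theorem kc_succ (k : ℕ) (hk : 1 ≤ k) : kc (k + 1) = 2 * kc k + 1 - kc ((k + 1) / 2) := by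
  obtain ⟨m, rfl⟩ := Nat.exists_eq_add_of_le' hk
  rw [kc]

theorem kc_mono_aux (k : ℕ) : ∀ j, j ≤ k → kc j ≤ kc k := by
  induction k with
  | zero => intro j hj; obtain rfl : j = 0 := by omega
            exact le_rfl
  | succ k ih =>
    intro j hj
    rcases Nat.eq_zero_or_pos k with rfl | hk
    · have : j = 0 ∨ j = 1 := by omega
      rcases this with rfl | rfl <;> simp [kc]
    · rcases Nat.lt_or_ge j (k + 1) with h | h
      · have h1 := ih j (by omega)
        have h2 := ih ((k + 1) / 2) (by omega)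
        rw [kc_succ k hk]; omega
      · obtain rfl : j = k + 1 := by omega
        exact le_rfl

theorem kc_mono : Monotone kc := fun a b h => kc_mono_aux b a h

/-- An `n`-periodic `ℕ`-indexed grading with trivial zero component. -/
structure Sys (n : ℕ) (L : Type*) [LieRing L] where
  A : ℕ → AddSubgroup L
  br : ∀ i j x y, x ∈ A i → y ∈ A j → ⁅x, y⁆ ∈ A (i + j)
  per : ∀ i j, i ≡ j [MOD n] → A i = A j
  zero : A 0 = ⊥

namespace Sys

variable {n : ℕ} {L : Type*} [LieRing L]

/-- The set of brackets of total degree `k`. -/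
def brs (S : Sys n L) (k : ℕ) : Set L :=
  {z | ∃ i j x y, i + j ≡ k [MOD n] ∧ x ∈ S.A i ∧ y ∈ S.A j ∧ z = ⁅x, y⁆}

theorem closure_brs_le (S : Sys n L) (k : ℕ) : AddSubgroup.closure (S.brs k) ≤ S.A k := by
  rw [AddSubgroup.closure_le]
  rintro z ⟨i, j, x, y, h, hx, hy, rfl⟩
  have := S.br i j x y hx hy
  rwa [S.per _ _ h] at this

/-- The derived system. -/
def der (S : Sys n L) : Sys n L where
  A k := AddSubgroup.closure (S.brs k)
  br i j x y hx hy := AddSubgroup.subset_closure
    ⟨i, j, x, y, rfl, S.closure_brs_le i hx, S.closure_brs_le j hy, rfl⟩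
  per i j h := by
    have : S.brs i = S.brs j := by
      ext z; constructor
      · rintro ⟨a, b, x, y, h1, hx, hy, rfl⟩
        exact ⟨a, b, x, y, h1.trans h, hx, hy, rfl⟩
      · rintro ⟨a, b, x, y, h1, hx, hy, rfl⟩
        exact ⟨a, b, x, y, h1.trans h.symm, hx, hy, rfl⟩
    rw [this]
  zero := by
    have := S.closure_brs_le 0
    rw [S.zero] at this
    exact le_bot_iff.mp this

theorem der_le (S : Sys n L) (k : ℕ) : S.der.A k ≤ S.A k := S.closure_brs_le k

theorem iter_le (S : Sys n L) (N k : ℕ) : (der^[N] S).A k ≤ S.A k := by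
  induction N with
  | zero => exact le_rfl
  | succ N ih => rw [Function.iterate_succ_apply']; exact (der_le _ _).trans ih

theorem iter_anti (S : Sys n L) {a b : ℕ} (h : a ≤ b) (k : ℕ) :
    (der^[b] S).A k ≤ (der^[a] S).A k := by
  obtain ⟨c, rfl⟩ := Nat.exists_eq_add_of_le' h
  rw [Function.iterate_add_apply]
  exact iter_le _ _ _

theorem eq_zero_of_mod (S : Sys n L) {i : ℕ} (h : i ≡ 0 [MOD n]) {x : L} (hx : x ∈ S.A i) :
    x = 0 := by
  rw [S.per i 0 h, S.zero] at hx
  exact (AddSubgroup.mem_bot).mp hx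

/-- `Gen S k j x`: `x` is a `ℤ`-combination of left-normed monomials of degree `≡ j` in the
components `A b` with `k ≤ b < n`. -/
inductive Gen (S : Sys n L) (k : ℕ) : ℕ → L → Prop
  | zero (j : ℕ) : Gen S k j 0
  | add {j : ℕ} {x y : L} : Gen S k j x → Gen S k j y → Gen S k j (x + y)
  | neg {j : ℕ} {x : L} : Gen S k j x → Gen S k j (-x)
  | base {b : ℕ} {x : L} : k ≤ b → b < n → x ∈ S.A b → Gen S k b x
  | br {j b : ℕ} {x y : L} : Gen S k j x → k ≤ b → b < n → y ∈ S.A b → Gen S k (j + b) ⁅x, y⁆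
  | mod {i j : ℕ} {x : L} : Gen S k i x → i ≡ j [MOD n] → Gen S k j x

theorem Gen.mem {S : Sys n L} {k j : ℕ} {x : L} (h : Gen S k j x) : x ∈ S.A j := by
  induction h with
  | zero j => exact (S.A j).zero_mem
  | add _ _ h1 h2 => exact (S.A _).add_mem h1 h2
  | neg _ h1 => exact (S.A _).neg_mem h1
  | base _ _ h => exact h
  | br _ _ _ h2 h1 => exact S.br _ _ _ _ h1 h2
  | mod _ h h1 => rwa [← S.per _ _ h]

theorem Gen.lie {S : Sys n L} {k j : ℕ} {y : L} (hy : Gen S k j y) :
    ∀ {i : ℕ} {x : L}, Gen S k i x → Gen S k (i + j) ⁅x, y⁆ := by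
  induction hy with
  | zero j => intro i x _; rw [lie_zero]; exact Gen.zero _
  | add _ _ h1 h2 => intro i x hx; rw [lie_add]; exact (h1 hx).add (h2 hx)
  | neg _ h1 => intro i x hx; rw [lie_neg]; exact (h1 hx).neg
  | base h1 h2 h3 => intro i x hx; exact hx.br h1 h2 h3
  | @br j b y z _ hb1 hb2 hz ih =>
    intro i x hx
    have e : ⁅x, ⁅y, z⁆⁆ = ⁅⁅x, y⁆, z⁆ + -⁅⁅x, z⁆, y⁆ := by
      rw [leibniz_lie, lie_skew]
    rw [e]
    refine Gen.add ?_ (Gen.neg ?_)
    · have := (ih hx).br hb1 hb2 hz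
      rwa [add_assoc] at this
    · have := ih (hx.br hb1 hb2 hz)
      have e2 : i + b + j = i + (j + b) := by ring
      rwa [e2] at this
  | mod _ h h1 =>
    intro i x hx
    exact (h1 hx).mod (Nat.ModEq.add_left i h)

/-- `Gen S k j` as a subgroup. -/
def genSub (S : Sys n L) (k j : ℕ) : AddSubgroup L where
  carrier := {x | Gen S k j x}
  zero_mem' := Gen.zero j
  add_mem' h1 h2 := Gen.add h1 h2
  neg_mem' h := Gen.neg h

/-- Brackets with last letter in a component of index `≥ k`. -/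
def rset (S : Sys n L) (k d : ℕ) : Set L :=
  {z | ∃ a b p q, a + b ≡ d [MOD n] ∧ k ≤ b ∧ b < n ∧ p ∈ S.A a ∧ q ∈ S.A b ∧ z = ⁅p, q⁆}

theorem lie_mem_rset {S : Sys n L} {k j : ℕ} {y : L} (hy : Gen S k j y) :
    ∀ {i : ℕ} {x : L}, x ∈ S.A i → ⁅x, y⁆ ∈ AddSubgroup.closure (S.rset k (i + j)) := by
  induction hy with
  | zero j => intro i x _; rw [lie_zero]; exact AddSubgroup.zero_mem _
  | add _ _ h1 h2 => intro i x hx; rw [lie_add]; exact AddSubgroup.add_mem _ (h1 hx) (h2 hx)
  | neg _ h1 => intro i x hx; rw [lie_neg]; exact AddSubgroup.neg_mem _ (h1 hx)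
  | @base b y h1 h2 h3 =>
    intro i x hx
    exact AddSubgroup.subset_closure ⟨i, b, x, y, rfl, h1, h2, hx, h3, rfl⟩
  | @br j b y z hy hb1 hb2 hz ih =>
    intro i x hx
    have e : ⁅x, ⁅y, z⁆⁆ = ⁅⁅x, y⁆, z⁆ + -⁅⁅x, z⁆, y⁆ := by
      rw [leibniz_lie, lie_skew]
    rw [e]
    refine AddSubgroup.add_mem _ ?_ (AddSubgroup.neg_mem _ ?_)
    · refine AddSubgroup.subset_closure ⟨i + j, b, ⁅x, y⁆, z, ?_, hb1, hb2, ?_, hz, rfl⟩
      · rw [add_assoc]
      · exact S.br _ _ _ _ hx hy.mem
    · have := ih (S.br _ _ _ _ hx hz)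
      have e2 : i + b + j = i + (j + b) := by ring
      rwa [e2] at this
  | @mod j j' y _ h h1 =>
    intro i x hx
    have := h1 hx
    have e : S.rset k (i + j) = S.rset k (i + j') := by
      ext z; constructor
      · rintro ⟨a, b, p, q, h2, h3⟩
        exact ⟨a, b, p, q, h2.trans (Nat.ModEq.add_left i h), h3⟩
      · rintro ⟨a, b, p, q, h2, h3⟩
        exact ⟨a, b, p, q, h2.trans (Nat.ModEq.add_left i h).symm, h3⟩
    rwa [← e]

theorem rset_sub {S : Sys n L} {k : ℕ} (_hk : k < n) :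
    AddSubgroup.closure (S.rset k k) ≤ S.genSub (k + 1) k := by
  rw [AddSubgroup.closure_le]
  rintro z ⟨a, b, p, q, h, hb1, hb2, hp, hq, rfl⟩
  rcases Nat.eq_or_lt_of_le hb1 with rfl | hlt
  · have h0 : a ≡ 0 [MOD n] := by
      have : a + k ≡ 0 + k [MOD n] := by rwa [zero_add]
      exact Nat.ModEq.add_right_cancel' k this
    rw [S.eq_zero_of_mod h0 hp, zero_lie]
    exact Gen.zero _
  · have h1 : a ≡ n + k - b [MOD n] := by
      have h2 : a + b ≡ (n + k - b) + b [MOD n] := by
        have : n + k - b + b = n + k := by omega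
        rw [this]
        refine h.trans ?_
        simp [Nat.ModEq]
      exact Nat.ModEq.add_right_cancel' b h2
    rw [S.per _ _ h1] at hp
    have g := (Gen.base (S := S) (k := k + 1) (by omega : k + 1 ≤ n + k - b) (by omega) hp).br
      (by omega : k + 1 ≤ b) hb2 hq
    have : n + k - b + b = n + k := by omega
    rw [this] at g
    refine g.mod ?_
    simp [Nat.ModEq]

/-- Elimination step: a bracket of total degree `k` with one factor generated by the components of
index `≥ k` is generated by the components of index `> k`. -/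
theorem elim {S : Sys n L} {k i j : ℕ} (hk : k < n) (hij : i + j = k) {x y : L}
    (hx : x ∈ S.A i) (hy : Gen S k j y) : Gen S (k + 1) k ⁅x, y⁆ := by
  have := lie_mem_rset hy hx
  rw [hij] at this
  exact rset_sub hk this

theorem Gen.lift {M S : Sys n L} {k : ℕ} (hle : ∀ i, M.A i ≤ S.A i)
    (hk : ∀ x ∈ M.A k, Gen S (k + 1) k x) {j : ℕ} {x : L} (hx : Gen M k j x) :
    Gen S (k + 1) j x := by
  have key : ∀ b y, k ≤ b → b < n → y ∈ M.A b → Gen S (k + 1) b y := by
    intro b y h1 h2 hy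
    rcases Nat.eq_or_lt_of_le h1 with rfl | h
    · exact hk y hy
    · exact Gen.base h h2 (hle _ hy)
  induction hx with
  | zero j => exact Gen.zero j
  | add _ _ h1 h2 => exact h1.add h2
  | neg _ h1 => exact h1.neg
  | base h1 h2 h3 => exact key _ _ h1 h2 h3
  | br _ h1 h2 h3 ih => exact (key _ _ h1 h2 h3).lie ih
  | mod _ h ih => exact ih.mod h

/-- The components of index `≡ j`, `1 ≤ j < k`, of the `(kc k - kc j)`-th derived system are
generated by the components of index `≥ k`. -/
def Prop1 (n : ℕ) (L : Type*) [LieRing L] (k : ℕ) : Prop :=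
  ∀ (S : Sys n L) (j : ℕ), 1 ≤ j → j < k → ∀ x ∈ (der^[kc k - kc j] S).A j, Gen S k j x

theorem elim_k {k : ℕ} (h1 : 1 ≤ k) (hk : k < n) (hP : Prop1 n L k) (S : Sys n L) :
    ∀ x ∈ (der^[(kc k - kc ((k + 1) / 2)) + 1] S).A k, Gen S (k + 1) k x := by
  intro x hx
  rw [Function.iterate_succ_apply'] at hx
  set N := kc k - kc ((k + 1) / 2) with hN
  have hsub : AddSubgroup.closure ((der^[N] S).brs k) ≤ S.genSub (k + 1) k := by
    rw [AddSubgroup.closure_le]
    rintro z ⟨i, j, x, y, h, hx, hy, rfl⟩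
    have hn : 0 < n := by omega
    -- reduce the indices modulo n
    rw [(der^[N] S).per i (i % n) (Nat.mod_modEq i n).symm] at hx
    rw [(der^[N] S).per j (j % n) (Nat.mod_modEq j n).symm] at hy
    have h' : i % n + j % n ≡ k [MOD n] :=
      (Nat.ModEq.add (Nat.mod_modEq i n) (Nat.mod_modEq j n)).trans h
    have hi := Nat.mod_lt i hn
    have hj := Nat.mod_lt j hn
    generalize i % n = a at *
    generalize j % n = b at *
    show Gen S (k + 1) k ⁅x, y⁆
    rcases Nat.eq_zero_or_pos a with rfl | ha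
    · rw [(der^[N] S).eq_zero_of_mod rfl hx, zero_lie]; exact Gen.zero _
    rcases Nat.eq_zero_or_pos b with rfl | hb
    · rw [(der^[N] S).eq_zero_of_mod rfl hy, lie_zero]; exact Gen.zero _
    -- a + b = k or a + b = n + k
    have hab : a + b = k ∨ a + b = n + k := by
      have h2 : (a + b) % n = k % n := h'
      rw [Nat.mod_eq_of_lt hk] at h2
      rcases Nat.lt_or_ge (a + b) n with hlt | hge
      · left; rw [Nat.mod_eq_of_lt hlt] at h2; exact h2
      · right; rw [Nat.mod_eq_sub_mod hge, Nat.mod_eq_of_lt (by omega)] at h2; omega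
    rcases hab with hab | hab
    · rcases Nat.lt_or_ge b ((k + 1) / 2) with hlt | hge
      · -- a is the large one
        have ha2 : (k + 1) / 2 ≤ a := by omega
        have hle : kc k - kc a ≤ N := by
          have := kc_mono ha2; omega
        have hx' : Gen S k a x := hP S a ha (by omega) x (iter_anti S hle a hx)
        have := elim (S := S) hk (by omega : b + a = k) (iter_le S N b hy) hx'
        rw [← lie_skew]
        exact this.neg
      · have hle : kc k - kc b ≤ N := by
          have := kc_mono hge; omega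
        have hy' : Gen S k b y := hP S b hb (by omega) y (iter_anti S hle b hy)
        exact elim (S := S) hk hab (iter_le S N a hx) hy'
    · have g := (Gen.base (S := S) (k := k + 1) (by omega : k + 1 ≤ a) hi
        (iter_le S N a hx)).br (by omega : k + 1 ≤ b) hj (iter_le S N b hy)
      rw [hab] at g
      exact g.mod (by simp [Nat.ModEq])
  exact hsub hx

theorem prop1 (k : ℕ) (h1 : 1 ≤ k) (hk : k ≤ n) : Prop1 n L k := by
  induction k with
  | zero => omega
  | succ k ih =>
    rcases Nat.eq_zero_or_pos k with rfl | hk0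
    · intro S j hj1 hj2; omega
    · have hP : Prop1 n L k := ih hk0 (by omega)
      intro S j hj1 hj2 x hx
      have hks := kc_succ k hk0
      have hm := kc_mono (show (k + 1) / 2 ≤ k by omega)
      rcases Nat.lt_or_ge j k with hlt | hge
      · have hmj := kc_mono hlt.le
        have e : kc (k + 1) - kc j = (kc k - kc j) + ((kc k - kc ((k + 1) / 2)) + 1) := by omega
        rw [e, Function.iterate_add_apply] at hx
        have g := hP (der^[(kc k - kc ((k + 1) / 2)) + 1] S) j hj1 hlt x hx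
        exact g.lift (fun i => iter_le S _ i) (elim_k hk0 (by omega) hP S)
      · obtain rfl : j = k := by omega
        have e : kc (j + 1) - kc j = (kc j - kc ((j + 1) / 2)) + 1 := by omega
        rw [e] at hx
        exact elim_k hk0 (by omega) hP S x hx

/-! ### The last step: the subring generated by one component is nilpotent -/

/-- `G S r`: left-normed monomials of weight `r + 1` in the component `A (n-1)`. -/
def G (S : Sys n L) : ℕ → AddSubgroup L
  | 0 => S.A (n - 1)
  | r + 1 => AddSubgroup.closure {z | ∃ x ∈ G S r, ∃ y ∈ S.A (n - 1), z = ⁅x, y⁆}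

theorem G_le (S : Sys n L) (r : ℕ) : S.G r ≤ S.A ((r + 1) * (n - 1)) := by
  induction r with
  | zero => rw [zero_add, one_mul]; exact le_rfl
  | succ r ih =>
    rw [G, AddSubgroup.closure_le]
    rintro z ⟨x, hx, y, hy, rfl⟩
    have := S.br _ _ _ _ (ih hx) hy
    have e : (r + 1) * (n - 1) + (n - 1) = (r + 1 + 1) * (n - 1) := by ring
    rwa [e] at this

theorem G_bot (S : Sys n L) (hn : 0 < n) (r : ℕ) : S.G (n - 1 + r) = ⊥ := by
  induction r with
  | zero =>
    rw [add_zero, eq_bot_iff]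
    intro x hx
    have h1 := S.G_le _ hx
    have e : (n - 1 + 1) * (n - 1) ≡ 0 [MOD n] := by
      have : n - 1 + 1 = n := by omega
      rw [this]
      exact (Nat.modEq_zero_iff_dvd).mpr (dvd_mul_right _ _)
    exact AddSubgroup.mem_bot.mpr (S.eq_zero_of_mod e h1)
  | succ r ih =>
    rw [← add_assoc, G, eq_bot_iff, AddSubgroup.closure_le]
    rintro z ⟨x, hx, y, hy, rfl⟩
    rw [ih] at hx
    rw [AddSubgroup.mem_bot.mp hx, zero_lie]
    exact AddSubgroup.zero_mem _

theorem G_lie (S : Sys n L) (s : ℕ) : ∀ (r : ℕ) (x y : L), x ∈ S.G r → y ∈ S.G s →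
    ⁅x, y⁆ ∈ S.G (r + s + 1) := by
  induction s with
  | zero =>
    intro r x y hx hy
    exact AddSubgroup.subset_closure ⟨x, hx, y, hy, rfl⟩
  | succ s ih =>
    intro r x y hx hy
    rw [G] at hy
    induction hy using AddSubgroup.closure_induction with
    | zero => rw [lie_zero]; exact AddSubgroup.zero_mem _
    | add a b _ _ ha hb => rw [lie_add]; exact AddSubgroup.add_mem _ ha hb
    | neg a _ ha => rw [lie_neg]; exact AddSubgroup.neg_mem _ ha
    | mem z hz =>
      obtain ⟨u, hu, v, hv, rfl⟩ := hz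
      have e : ⁅x, ⁅u, v⁆⁆ = ⁅⁅x, u⁆, v⁆ + -⁅⁅x, v⁆, u⁆ := by
        rw [leibniz_lie, lie_skew]
      rw [e]
      refine AddSubgroup.add_mem _ ?_ (AddSubgroup.neg_mem _ ?_)
      · exact AddSubgroup.subset_closure ⟨_, ih r x u hx hu, v, hv, rfl⟩
      · have h1 : ⁅x, v⁆ ∈ S.G (r + 1) := AddSubgroup.subset_closure ⟨x, hx, v, hv, rfl⟩
        have := ih (r + 1) _ u h1 hu
        have e2 : r + 1 + s + 1 = r + (s + 1) + 1 := by ring
        rwa [e2] at this

/-- Monomials of weight at least `t + 1` in the component `A (n-1)`. -/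
def H (S : Sys n L) (t : ℕ) : AddSubgroup L := ⨆ r, S.G (t + r)

theorem H_bot (S : Sys n L) (hn : 0 < n) {t : ℕ} (ht : n - 1 ≤ t) : S.H t = ⊥ := by
  rw [H, iSup_eq_bot]
  intro r
  obtain ⟨c, rfl⟩ := Nat.exists_eq_add_of_le ht
  rw [add_assoc]
  exact S.G_bot hn _

theorem H_lie (S : Sys n L) (s t : ℕ) {x y : L} (hx : x ∈ S.H s) (hy : y ∈ S.H t) :
    ⁅x, y⁆ ∈ S.H (s + t + 1) := by
  rw [H] at hx hy
  induction hx using AddSubgroup.iSup_induction' with
  | hp i x hx =>
    induction hy using AddSubgroup.iSup_induction' with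
    | hp j y hy =>
      have := S.G_lie _ _ _ _ hx hy
      have e : s + i + (t + j) + 1 = s + t + 1 + (i + j) := by ring
      rw [e] at this
      exact (le_iSup (fun r => S.G (s + t + 1 + r)) (i + j)) this
    | h1 => rw [lie_zero]; exact AddSubgroup.zero_mem _
    | hadd a b _ _ ha hb => rw [lie_add]; exact AddSubgroup.add_mem _ ha hb
  | h1 => rw [zero_lie]; exact AddSubgroup.zero_mem _
  | hadd a b _ _ ha hb => rw [add_lie]; exact AddSubgroup.add_mem _ ha hb

theorem H_anti (S : Sys n L) {s t : ℕ} (h : s ≤ t) : S.H t ≤ S.H s := by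
  obtain ⟨c, rfl⟩ := Nat.exists_eq_add_of_le h
  refine iSup_le fun r => ?_
  rw [add_assoc]
  exact le_iSup (fun r => S.G (s + r)) (c + r)

theorem Gen.memH {S : Sys n L} {j : ℕ} {x : L} (h : Gen S (n - 1) j x) : x ∈ S.H 0 := by
  have base : ∀ b y, n - 1 ≤ b → b < n → y ∈ S.A b → y ∈ S.H 0 := by
    intro b y h1 h2 hy
    obtain rfl : b = n - 1 := by omega
    exact (le_iSup (fun r => S.G (0 + r)) 0) hy
  induction h with
  | zero j => exact AddSubgroup.zero_mem _
  | add _ _ h1 h2 => exact AddSubgroup.add_mem _ h1 h2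
  | neg _ h1 => exact AddSubgroup.neg_mem _ h1
  | base h1 h2 h3 => exact base _ _ h1 h2 h3
  | br _ h1 h2 h3 ih => exact S.H_anti (Nat.zero_le _) (S.H_lie 0 0 ih (base _ _ h1 h2 h3))
  | mod _ _ ih => exact ih

theorem der_H {M S : Sys n L} (h : ∀ j, M.A j ≤ S.H 0) (t j : ℕ) :
    (der^[t] M).A j ≤ S.H (2 ^ t - 1) := by
  induction t generalizing j with
  | zero => exact h j
  | succ t ih =>
    rw [Function.iterate_succ_apply']
    show AddSubgroup.closure _ ≤ _
    rw [AddSubgroup.closure_le]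
    rintro z ⟨a, b, x, y, _, hx, hy, rfl⟩
    have := S.H_lie _ _ (ih a hx) (ih b hy)
    have e : 2 ^ t - 1 + (2 ^ t - 1) + 1 = 2 ^ (t + 1) - 1 := by
      have := Nat.one_le_two_pow (n := t)
      rw [pow_succ]; omega
    rwa [e] at this

/-- The bound. -/
def bound (n : ℕ) : ℕ := kc (n - 1) + Nat.clog 2 n

theorem iter_bound (hn : 0 < n) (S : Sys n L) (j : ℕ) : (der^[bound n] S).A j = ⊥ := by
  rcases Nat.lt_or_ge n 2 with h1 | h2
  · obtain rfl : n = 1 := by omega
    rw [eq_bot_iff]
    intro x hx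
    exact AddSubgroup.mem_bot.mpr (eq_zero_of_mod _ (Nat.modEq_one) hx)
  · rw [bound, add_comm, Function.iterate_add_apply]
    have hM : ∀ j, (der^[kc (n - 1)] S).A j ≤ S.H 0 := by
      intro j x hx
      rw [(der^[kc (n - 1)] S).per j (j % n) (Nat.mod_modEq j n).symm] at hx
      have hj := Nat.mod_lt j hn
      generalize j % n = i at *
      rcases Nat.eq_zero_or_pos i with rfl | hi
      · rw [eq_zero_of_mod _ rfl hx]; exact AddSubgroup.zero_mem _
      rcases Nat.lt_or_ge i (n - 1) with hlt | hge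
      · have := prop1 (n := n) (L := L) (n - 1) (by omega) (by omega) S i hi hlt x
          (iter_anti S (Nat.sub_le _ _) i hx)
        exact this.memH
      · exact (Gen.base (S := S) (k := n - 1) (by omega) hj (iter_le S _ _ hx)).memH
    have h3 := der_H hM (Nat.clog 2 n) j
    rw [S.H_bot hn] at h3
    · exact le_bot_iff.mp h3
    · have := Nat.le_pow_clog (b := 2) (by norm_num) n
      omega

end Sys

open Sys

/-- The system attached to a `ZMod n`-grading. -/
def ofGrading {n : ℕ} {L : Type*} [LieRing L] (𝓛 : ZMod n → AddSubgroup L)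
    (hbr : ∀ i j, ∀ x ∈ 𝓛 i, ∀ y ∈ 𝓛 j, ⁅x, y⁆ ∈ 𝓛 (i + j)) (h0 : 𝓛 0 = ⊥) : Sys n L where
  A i := 𝓛 (i : ZMod n)
  br i j x y hx hy := by
    have := hbr _ _ x hx y hy
    rwa [← Nat.cast_add] at this
  per i j h := by
    show 𝓛 (i : ZMod n) = 𝓛 (j : ZMod n)
    rw [(ZMod.natCast_eq_natCast_iff i j n).mpr h]
  zero := by
    show 𝓛 ((0 : ℕ) : ZMod n) = ⊥
    rw [Nat.cast_zero, h0]

theorem derivedSeries_sub {n : ℕ} {L : Type*} [LieRing L] (S : Sys n L)
    (hsum : ∀ x : L, x ∈ ⨆ i, S.A i) (N : ℕ) :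
    ∀ x ∈ LieAlgebra.derivedSeries ℤ L N, x ∈ ⨆ i, (der^[N] S).A i := by
  induction N with
  | zero => intro x _; exact hsum x
  | succ N ih =>
    intro x hx
    rw [LieAlgebra.derivedSeries_def, LieAlgebra.derivedSeriesOfIdeal_succ,
      ← LieSubmodule.mem_toSubmodule, LieSubmodule.lieIdeal_oper_eq_linear_span] at hx
    have key : ∀ y ∈ LieAlgebra.derivedSeries ℤ L N, ∀ z ∈ LieAlgebra.derivedSeries ℤ L N,
        ⁅y, z⁆ ∈ ⨆ i, (der^[N + 1] S).A i := by
      intro y hy z hz
      have hy' := ih y hy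
      have hz' := ih z hz
      clear hy hz
      induction hy' using AddSubgroup.iSup_induction' with
      | hp i y hy =>
        induction hz' using AddSubgroup.iSup_induction' with
        | hp j z hz =>
          refine (le_iSup (fun i => (der^[N + 1] S).A i) (i + j)) ?_
          simp only [Function.iterate_succ_apply']
          exact AddSubgroup.subset_closure ⟨i, j, y, z, rfl, hy, hz, rfl⟩
        | h1 => rw [lie_zero]; exact AddSubgroup.zero_mem _
        | hadd a b _ _ ha hb => rw [lie_add]; exact AddSubgroup.add_mem _ ha hb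
      | h1 => rw [zero_lie]; exact AddSubgroup.zero_mem _
      | hadd a b _ _ ha hb => rw [add_lie]; exact AddSubgroup.add_mem _ ha hb
    induction hx using Submodule.span_induction with
    | mem z hz =>
      obtain ⟨a, b, rfl⟩ := hz
      exact key _ a.2 _ b.2
    | zero => exact AddSubgroup.zero_mem _
    | add a b _ _ ha hb => exact AddSubgroup.add_mem _ ha hb
    | smul c a _ ha => exact AddSubgroup.zsmul_mem _ ha c

end Pool.Agent.H899KR
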