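import Pool.Agent.H899KR.Main

namespace Pool.Agent.H899KR.Sys

theorem kc_succ_le (k : ℕ) : kc (k + 1) ≤ 2 * kc k + 1 := by
  rcases Nat.eq_zero_or_pos k with rfl | hk
  · simp [kc]
  · rw [kc_succ k hk]; exact Nat.sub_le _ _

theorem kc_values : kc 12 = 1137 := by
  have h2 : kc 2 = 1 := by rw [kc_succ 1 (by norm_num)]; simp [kc]
  have h3 : kc 3 = 3 := by rw [kc_succ 2 (by norm_num), h2]; simp [kc]
  have h4 : kc 4 = 6 := by rw [kc_succ 3 (by norm_num), h3]; norm_num [h2]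
  have h5 : kc 5 = 12 := by rw [kc_succ 4 (by norm_num), h4]; norm_num [h2]
  have h6 : kc 6 = 22 := by rw [kc_succ 5 (by norm_num), h5]; norm_num [h3]
  have h7 : kc 7 = 42 := by rw [kc_succ 6 (by norm_num), h6]; norm_num [h3]
  have h8 : kc 8 = 79 := by rw [kc_succ 7 (by norm_num), h7]; norm_num [h4]
  have h9 : kc 9 = 153 := by rw [kc_succ 8 (by norm_num), h8]; norm_num [h4]
  have h10 : kc 10 = 295 := by rw [kc_succ 9 (by norm_num), h9]; norm_num [h5]
  have h11 : kc 11 = 579 := by rw [kc_succ 10 (by norm_num), h10]; norm_num [h5]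
  rw [kc_succ 11 (by norm_num), h11]; norm_num [h6]

theorem kc_bound (m : ℕ) : kc (12 + m) + 1 ≤ 1138 * 2 ^ m := by
  induction m with
  | zero => rw [add_zero, kc_values]; norm_num
  | succ m ih =>
    have := kc_succ_le (12 + m)
    rw [← add_assoc, pow_succ]; omega

theorem bound_le (n : ℕ) (hn : 13 ≤ n) : 7 * bound n ≤ 2 ^ n := by
  obtain ⟨m, rfl⟩ := Nat.exists_eq_add_of_le hn
  have h1 := kc_bound m
  have h2 : Nat.clog 2 (13 + m) ≤ m + 4 := by
    refine Nat.clog_le_of_le_pow ?_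
    have : m + 1 ≤ 2 ^ m := Nat.lt_two_pow_self
    rw [pow_add]; omega
  have h3 : m + 1 ≤ 2 ^ m := Nat.lt_two_pow_self
  have e : 13 + m - 1 = 12 + m := by omega
  rw [bound, e, pow_add]
  omega

end Pool.Agent.H899KR.Sys
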